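import Pool.Agent.L0h45.VL.Stm

/-!
# VL, module V6: the number of the quartic forms with given invariant `I` in a box
-/

set_option autoImplicit false

open Finset

namespace Pool.Agent.L0h50.VL

open Pool.Agent.L0h45.VL Pool.Agent.L0h45.AR

theorem fib (h2 : S_V2) (h3 : S_V3) {j : ℕ} {L : ℝ} {n a b : ℤ} {S : Finset (Q4 ℤ)} (ha : a ≠ 0)
    (hb : b ≠ 0) (hL1 : 1 ≤ L) (haL : |(a : ℝ)| * 16 ^ j ≤ L) (hbL : |(b : ℝ)| * 4 ^ j ≤ L)
    (hS : ∀ F ∈ S, F.a = a ∧ F.b = b ∧ F.I = n ∧ Box L j F) :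
    (S.card : ℝ) ≤ 12 * ((Int.gcd (4 * a) b).divisors.card : ℝ) * √(Int.gcd (4 * a) b : ℝ) *
      (L ^ 2 * 8 ^ j / √(|(a : ℝ)| * |(b : ℝ)|)) := by
  classical
  obtain ⟨g, hg⟩ : ∃ g, g = Int.gcd (4 * a) b := ⟨_, rfl⟩
  have hg1 : 1 ≤ g := by
    rw [hg]
    exact Nat.one_le_iff_ne_zero.mpr (fun h => hb (Int.gcd_eq_zero_iff.mp h).2)
  have hgb : (g : ℤ) ∣ b := by
    rw [hg]
    exact Int.gcd_dvd_right _ _
  have hga : (g : ℤ) ∣ 4 * a := by
    rw [hg]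
    exact Int.gcd_dvd_left _ _
  have hgL : (g : ℝ) ≤ 4 * L := by
    have e1 : (g : ℤ) ≤ |b| := Int.le_of_dvd (abs_pos.mpr hb) ((dvd_abs _ _).mpr hgb)
    have e2 : (g : ℝ) ≤ |(b : ℝ)| := by exact_mod_cast e1
    have e3 : (1 : ℝ) ≤ 4 ^ j := one_le_pow₀ (by norm_num)
    have e4 : 0 ≤ |(b : ℝ)| := abs_nonneg _
    nlinarith
  have hc : ∀ c ∈ S.image Q4.c, (((S.filter (fun F => F.c = c)).card : ℕ) : ℝ) ≤
      3 * (g : ℝ) * (L * 8 ^ j / √(|(a : ℝ)| * |(b : ℝ)|)) := by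
    intro c _
    have e1 : ((S.filter (fun F => F.c = c)).image (fun F => (F.d, F.e))).card =
        (S.filter (fun F => F.c = c)).card := by
      apply card_image_of_injOn
      intro F hF G hG he
      rw [mem_coe, mem_filter] at hF hG
      obtain ⟨f1, f2, -, -⟩ := hS F hF.1
      obtain ⟨g1, g2, -, -⟩ := hS G hG.1
      simp only [Prod.mk.injEq] at he
      exact Q4.ext (f1.trans g1.symm) (f2.trans g2.symm) (hF.2.trans hG.2.symm) he.1 he.2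
    rw [← e1, hg]
    apply h2 j L a b (n - c ^ 2) ha hb haL hbL
    intro z hz
    rw [mem_image] at hz
    obtain ⟨F, hF, rfl⟩ := hz
    rw [mem_filter] at hF
    obtain ⟨f1, f2, f3, f4⟩ := hS F hF.1
    refine ⟨?_, f4.d, f4.e⟩
    have := f3
    unfold Q4.I at this
    rw [f1, f2, hF.2] at this
    linarith
  have hC : ((S.image Q4.c).card : ℝ) ≤ 4 * (g.divisors.card : ℝ) * (L / √(g : ℝ)) := by
    apply h3 g L n hg1 hL1 hgL
    intro c hc
    rw [mem_image] at hc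
    obtain ⟨F, hF, rfl⟩ := hc
    obtain ⟨f1, f2, f3, f4⟩ := hS F hF
    refine ⟨?_, f4.c⟩
    unfold Q4.I at f3
    rw [f1, f2] at f3
    have e1 : F.c ^ 2 - n = b * (3 * F.d) - 4 * a * (3 * F.e) := by linarith
    rw [e1]
    exact dvd_sub (Dvd.dvd.mul_right hgb _) (Dvd.dvd.mul_right hga _)
  have hsum : (S.card : ℝ) = ∑ c ∈ S.image Q4.c, (((S.filter (fun F => F.c = c)).card : ℕ) : ℝ) := by
    rw [card_eq_sum_card_image Q4.c S]
    push_cast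
    rfl
  have hg0 : (0 : ℝ) < g := by exact_mod_cast hg1
  have hs : √(g : ℝ) * √(g : ℝ) = g := Real.mul_self_sqrt hg0.le
  have hs0 : 0 < √(g : ℝ) := Real.sqrt_pos.mpr hg0
  rw [hsum, ← hg]
  calc _ ≤ ∑ c ∈ S.image Q4.c, 3 * (g : ℝ) * (L * 8 ^ j / √(|(a : ℝ)| * |(b : ℝ)|)) := sum_le_sum hc
    _ = ((S.image Q4.c).card : ℝ) * (3 * (g : ℝ) * (L * 8 ^ j / √(|(a : ℝ)| * |(b : ℝ)|))) := by
        rw [sum_const, nsmul_eq_mul]
    _ ≤ (4 * (g.divisors.card : ℝ) * (L / √(g : ℝ))) *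
          (3 * (g : ℝ) * (L * 8 ^ j / √(|(a : ℝ)| * |(b : ℝ)|))) := by
        gcongr
    _ = 12 * (g.divisors.card : ℝ) * ((g : ℝ) / √(g : ℝ)) *
          (L ^ 2 * 8 ^ j / √(|(a : ℝ)| * |(b : ℝ)|)) := by ring
    _ = _ := by rw [Real.div_sqrt]

/-- the forms with `b = 0` -/
theorem zer {j : ℕ} {L : ℝ} {n : ℤ} {S : Finset (Q4 ℤ)} (hL : (16 : ℝ) ^ j ≤ L)
    (hS : ∀ F ∈ S, F.a ≠ 0 ∧ F.b = 0 ∧ F.I = n ∧ Box L j F) : (S.card : ℝ) ≤ 27 * L ^ 3 := by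
  have h0 : (1 : ℝ) ≤ 4 ^ j := one_le_pow₀ (by norm_num)
  have h16 : (16 : ℝ) ^ j = 4 ^ j * 4 ^ j := by
    rw [← mul_pow]
    norm_num
  obtain ⟨w, hw⟩ : ∃ w : ℝ, w = 4 ^ j := ⟨_, rfl⟩
  have hL0 : 0 < L := lt_of_lt_of_le (by positivity) hL
  have h1 : S.card ≤ (iv (L / 16 ^ j) ×ˢ (iv L ×ˢ iv (L * 4 ^ j))).card := by
    apply card_le_card_of_injOn (fun F => (F.a, (F.c, F.d)))
    · intro F hF
      obtain ⟨-, -, -, f4⟩ := hS F hF
      rw [mem_coe, mem_product, mem_product]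
      refine ⟨?_, ?_, ?_⟩
      · rw [mem_iv, le_div_iff₀ (by positivity)]
        exact f4.a
      · rw [mem_iv]
        exact f4.c
      · rw [mem_iv]
        exact f4.d
    · intro F hF G hG he
      obtain ⟨f1, f2, f3, -⟩ := hS F hF
      obtain ⟨-, g2, g3, -⟩ := hS G hG
      simp only [Prod.mk.injEq] at he
      obtain ⟨e1, e2, e3⟩ := he
      refine Q4.ext e1 (f2.trans g2.symm) e2 e3 ?_
      unfold Q4.I at f3 g3
      rw [← g3, f2, g2, ← e1, ← e2] at f3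
      have e4 : (12 * F.a) * F.e = (12 * F.a) * G.e := by linarith
      exact mul_left_cancel₀ (mul_ne_zero (by norm_num) f1) e4
  rw [card_product, card_product] at h1
  have h2 : (S.card : ℝ) ≤ ((iv (L / 16 ^ j)).card : ℝ) * (((iv L).card : ℝ) * ((iv (L * 4 ^ j)).card : ℝ)) := by
    exact_mod_cast h1
  refine h2.trans ?_
  rw [h16, ← hw]
  rw [h16, ← hw] at hL
  rw [← hw] at h0
  have hw0 : 0 < w := by linarith
  have i1 : ((iv (L / (w * w))).card : ℝ) ≤ 3 * (L / (w * w)) :=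
    iv_card (by rw [le_div_iff₀ (by positivity)]; linarith)
  have hL1 : 1 ≤ L := by nlinarith
  have i3 : ((iv L).card : ℝ) ≤ 3 * L := iv_card hL1
  have i4 : ((iv (L * w)).card : ℝ) ≤ 3 * (L * w) := iv_card (by nlinarith)
  calc _ ≤ (3 * (L / (w * w))) * ((3 * L) * (3 * (L * w))) := by gcongr
    _ = 27 * L ^ 3 / w := by
        field_simp
        ring
    _ ≤ 27 * L ^ 3 := div_le_self (by positivity) h0

/-- the forms with given `|a|`, `|b|` -/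
theorem fib4 (h2 : S_V2) (h3 : S_V3) {j : ℕ} {L : ℝ} {n : ℤ} {p q : ℕ} {S : Finset (Q4 ℤ)} (hp : 1 ≤ p)
    (hq : 1 ≤ q) (hL1 : 1 ≤ L) (hpL : (p : ℝ) * 16 ^ j ≤ L) (hqL : (q : ℝ) * 4 ^ j ≤ L)
    (hS : ∀ F ∈ S, F.a.natAbs = p ∧ F.b.natAbs = q ∧ F.I = n ∧ Box L j F) :
    (S.card : ℝ) ≤ 48 * (L ^ 2 * 8 ^ j) * (((Nat.gcd (4 * p) q).divisors.card : ℝ) *
      √(Nat.gcd (4 * p) q : ℝ) / √((p : ℝ) * q)) := by
  classical
  have key : ∀ a b : ℤ, a.natAbs = p → b.natAbs = q →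
      (((S.filter (fun F => F.a = a ∧ F.b = b)).card : ℕ) : ℝ) ≤
        12 * (L ^ 2 * 8 ^ j) * (((Nat.gcd (4 * p) q).divisors.card : ℝ) *
          √(Nat.gcd (4 * p) q : ℝ) / √((p : ℝ) * q)) := by
    intro a b ha hb
    have ea : |(a : ℝ)| = p := by
      rw [← ha, Nat.cast_natAbs]
      push_cast
      rfl
    have eb : |(b : ℝ)| = q := by
      rw [← hb, Nat.cast_natAbs]
      push_cast
      rfl
    have eg : Int.gcd (4 * a) b = Nat.gcd (4 * p) q := by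
      rw [Int.gcd_def, Int.natAbs_mul, ha, hb]
      rfl
    have h := fib h2 h3 (j := j) (L := L) (n := n) (a := a) (b := b)
      (S := S.filter (fun F => F.a = a ∧ F.b = b)) (by rintro rfl; simp at ha; omega)
      (by rintro rfl; simp at hb; omega) hL1 (by rw [ea]; exact hpL) (by rw [eb]; exact hqL) (by
        intro F hF
        rw [mem_filter] at hF
        obtain ⟨-, -, f3, f4⟩ := hS F hF.1
        exact ⟨hF.2.1, hF.2.2, f3, f4⟩)
    rw [ea, eb, eg] at h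
    refine h.trans (le_of_eq ?_)
    ring
  have hcov : S ⊆ ((S.filter (fun F => F.a = (p : ℤ) ∧ F.b = (q : ℤ))) ∪
      (S.filter (fun F => F.a = (p : ℤ) ∧ F.b = -(q : ℤ)))) ∪
      ((S.filter (fun F => F.a = -(p : ℤ) ∧ F.b = (q : ℤ))) ∪
      (S.filter (fun F => F.a = -(p : ℤ) ∧ F.b = -(q : ℤ)))) := by
    intro F hF
    obtain ⟨f1, f2, -, -⟩ := hS F hF
    have g1 : F.a = p ∨ F.a = -p := by omega
    have g2 : F.b = q ∨ F.b = -q := by omega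
    simp only [mem_union, mem_filter, hF, true_and]
    tauto
  have h1 := card_le_card hcov
  have h4 : S.card ≤ ((S.filter (fun F => F.a = (p : ℤ) ∧ F.b = (q : ℤ))).card +
      (S.filter (fun F => F.a = (p : ℤ) ∧ F.b = -(q : ℤ))).card) +
      ((S.filter (fun F => F.a = -(p : ℤ) ∧ F.b = (q : ℤ))).card +
      (S.filter (fun F => F.a = -(p : ℤ) ∧ F.b = -(q : ℤ))).card) :=
    h1.trans ((card_union_le _ _).trans (add_le_add (card_union_le _ _) (card_union_le _ _)))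
  have h5 : (S.card : ℝ) ≤ (((S.filter (fun F => F.a = (p : ℤ) ∧ F.b = (q : ℤ))).card : ℝ) +
      ((S.filter (fun F => F.a = (p : ℤ) ∧ F.b = -(q : ℤ))).card : ℝ)) +
      (((S.filter (fun F => F.a = -(p : ℤ) ∧ F.b = (q : ℤ))).card : ℝ) +
      ((S.filter (fun F => F.a = -(p : ℤ) ∧ F.b = -(q : ℤ))).card : ℝ)) := by
    exact_mod_cast h4
  have k1 := key p q (by simp) (by simp)
  have k2 := key p (-q) (by simp) (by simp)
  have k3 := key (-p) q (by simp) (by simp)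
  have k4 := key (-p) (-q) (by simp) (by simp)
  linarith

/-- **V6** -/
theorem v6 (h2 : S_V2) (h3 : S_V3) (h4 : S_V4) : S_V6 := by
  classical
  obtain ⟨C, hC, H⟩ := h4
  refine ⟨27 + 48 * C, by positivity, ?_⟩
  intro j L hL n S hS
  have hL1 : 1 ≤ L := le_trans (one_le_pow₀ (by norm_num)) hL
  have hL0 : 0 < L := by linarith
  obtain ⟨S0, hS0⟩ : ∃ S0, S0 = S.filter (fun F => F.b = 0) := ⟨_, rfl⟩
  obtain ⟨S1, hS1⟩ : ∃ S1, S1 = S.filter (fun F => ¬ F.b = 0) := ⟨_, rfl⟩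
  have e0 : S.card = S0.card + S1.card := by
    rw [hS0, hS1, card_filter_add_card_filter_not]
  have k0 : (S0.card : ℝ) ≤ 27 * L ^ 3 := by
    apply zer hL (n := n)
    intro F hF
    rw [hS0, mem_filter] at hF
    obtain ⟨f1, f2, f3⟩ := hS F hF.1
    exact ⟨f1, hF.2, f2, f3⟩
  obtain ⟨M, hM⟩ : ∃ M, M = ⌊L / 16 ^ j⌋₊ := ⟨_, rfl⟩
  obtain ⟨N, hN⟩ : ∃ N, N = ⌊L / 4 ^ j⌋₊ := ⟨_, rfl⟩
  have hM' : (M : ℝ) ≤ L / 16 ^ j := by
    rw [hM]
    exact Nat.floor_le (by positivity)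
  have hN' : (N : ℝ) ≤ L / 4 ^ j := by
    rw [hN]
    exact Nat.floor_le (by positivity)
  have hmap : ∀ F ∈ S1, (F.a.natAbs, F.b.natAbs) ∈ Icc 1 M ×ˢ Icc 1 N := by
    intro F hF
    rw [hS1, mem_filter] at hF
    obtain ⟨f1, f2, f3⟩ := hS F hF.1
    rw [mem_product, mem_Icc, mem_Icc]
    have g1 := f3.a
    have g2 := f3.b
    refine ⟨⟨?_, ?_⟩, ?_, ?_⟩
    · exact Nat.one_le_iff_ne_zero.mpr (by simpa using f1)
    · simp only
      rw [hM, Nat.le_floor_iff (by positivity), le_div_iff₀ (by positivity), Nat.cast_natAbs]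
      push_cast
      exact g1
    · exact Nat.one_le_iff_ne_zero.mpr (by simpa using hF.2)
    · simp only
      rw [hN, Nat.le_floor_iff (by positivity), le_div_iff₀ (by positivity), Nat.cast_natAbs]
      push_cast
      exact g2
  have hsum : (S1.card : ℝ) = ∑ z ∈ Icc 1 M ×ˢ Icc 1 N,
      (((S1.filter (fun F => (F.a.natAbs, F.b.natAbs) = z)).card : ℕ) : ℝ) := by
    rw [card_eq_sum_card_fiberwise (f := fun F : Q4 ℤ => (F.a.natAbs, F.b.natAbs)) (t := Icc 1 M ×ˢ Icc 1 N)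
      (fun F hF => hmap F hF)]
    push_cast
    rfl
  have hfib : ∀ z ∈ Icc 1 M ×ˢ Icc 1 N,
      (((S1.filter (fun F => (F.a.natAbs, F.b.natAbs) = z)).card : ℕ) : ℝ) ≤
      48 * (L ^ 2 * 8 ^ j) * (((Nat.gcd (4 * z.1) z.2).divisors.card : ℝ) *
      √(Nat.gcd (4 * z.1) z.2 : ℝ) / √((z.1 : ℝ) * z.2)) := by
    rintro ⟨p, q⟩ hz
    rw [mem_product, mem_Icc, mem_Icc] at hz
    obtain ⟨⟨a1, a2⟩, b1, b2⟩ := hz
    simp only at a1 a2 b1 b2
    apply fib4 h2 h3 a1 b1 hL1 (n := n)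
    · have : (p : ℝ) ≤ L / 16 ^ j := le_trans (by exact_mod_cast a2) hM'
      rwa [le_div_iff₀ (by positivity)] at this
    · have : (q : ℝ) ≤ L / 4 ^ j := le_trans (by exact_mod_cast b2) hN'
      rwa [le_div_iff₀ (by positivity)] at this
    · intro F hF
      rw [mem_filter, hS1, mem_filter] at hF
      obtain ⟨⟨hF1, hF2⟩, hF3⟩ := hF
      obtain ⟨f1, f2, f3⟩ := hS F hF1
      simp only [Prod.mk.injEq] at hF3
      exact ⟨hF3.1, hF3.2, f2, f3⟩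
  have k1 : (S1.card : ℝ) ≤ 48 * C * L ^ 3 := by
    rw [hsum]
    calc _ ≤ ∑ z ∈ Icc 1 M ×ˢ Icc 1 N, 48 * (L ^ 2 * 8 ^ j) * (((Nat.gcd (4 * z.1) z.2).divisors.card : ℝ) *
            √(Nat.gcd (4 * z.1) z.2 : ℝ) / √((z.1 : ℝ) * z.2)) := sum_le_sum hfib
      _ = 48 * (L ^ 2 * 8 ^ j) * ∑ a ∈ Icc 1 M, ∑ b ∈ Icc 1 N,
            ((Nat.gcd (4 * a) b).divisors.card : ℝ) * √(Nat.gcd (4 * a) b : ℝ) / √((a : ℝ) * b) := by
          rw [← mul_sum, sum_product]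
      _ ≤ 48 * (L ^ 2 * 8 ^ j) * (C * √((M : ℝ) * N)) := by
          have := H M N
          gcongr
      _ ≤ 48 * (L ^ 2 * 8 ^ j) * (C * √((L / 16 ^ j) * (L / 4 ^ j))) := by gcongr
      _ = 48 * (L ^ 2 * 8 ^ j) * (C * (L / 8 ^ j)) := by
          congr 3
          rw [Real.sqrt_eq_iff_mul_self_eq (by positivity) (by positivity)]
          have : (8 : ℝ) ^ j * 8 ^ j = 16 ^ j * 4 ^ j := by
            rw [← mul_pow, ← mul_pow]
            norm_num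
          field_simp
          rw [sq, this]
      _ = 48 * C * L ^ 3 := by
          field_simp
  rw [e0]
  push_cast
  linarith

end Pool.Agent.L0h50.VL
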